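import Pool.Agent.H248R5.Tay
import Pool.Agent.H248R6.Dim
import Pool.Agent.Y205.AV.Three
import Pool.Agent.W609.CR.Prime
import Pool.Agent.TH167.SH.Defs

set_option autoImplicit false

/-!
# A uniform bound for the superabundance of linear systems at general points

The number of independent conditions imposed by multiple points does not decrease with the degree;
so a system in the window where nothing is known has at most as many sections as the number of
the forms of its degree minus the number of the forms in a degree below of the window.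
-/

namespace Pool.Agent.R873.SB

open MvPolynomial Pool.Agent.TH167.SHDefs Pool.Agent.H932R3 Pool.Agent.Y205.AV

section mono

variable {K : Type} [Field K] {n : ℕ}

open Pool.Agent.H248R5

theorem range_mono (w : Fin n → ℕ) (P : Fin n → Fin 2 → K) {e e' : ℕ} (h : e ≤ e') :
    LinearMap.range (ev w P e) ≤ LinearMap.range (ev w P e') := by
  rintro _ ⟨H, rfl⟩
  have hH : (X 2 ^ (e' - e) * (H : MvPolynomial (Fin 3) K)) ∈
      homogeneousSubmodule (Fin 3) K e' := by
    rw [mem_homogeneousSubmodule]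
    have h1 := (isHomogeneous_X_pow (R := K) (2 : Fin 3) (e' - e)).mul
      ((mem_homogeneousSubmodule _ _).1 H.2)
    rwa [Nat.sub_add_cancel h] at h1
  refine ⟨⟨_, hH⟩, ?_⟩
  funext i
  rw [ev_apply, ev_apply]
  congr 1
  rw [map_mul, map_pow, tau_X2, one_pow, one_mul]

theorem rank_nullity (w : Fin n → ℕ) (P : Fin n → Fin 2 → K) (e : ℕ) :
    Module.finrank K ↥(LinearMap.range (ev w P e)) + Module.finrank K ↥(forms w P e) =
      (e + 2).choose 2 := by
  have hfin : Module.Finite K ↥(homogeneousSubmodule (Fin 3) K e) :=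
    Module.Finite.iff_fg.2 (homogeneousSubmodule_fg _ _ e)
  have h1 := LinearMap.finrank_range_add_finrank_ker (ev w P e)
  have h2 : Module.finrank K ↥(forms w P e) = Module.finrank K ↥(LinearMap.ker (ev w P e)) := by
    rw [forms_eq_map]
    exact LinearEquiv.finrank_eq (Submodule.equivSubtypeMap _ _).symm
  rw [h2, h1, Pool.Agent.H248R6.finrank_homog]

/-- The number of independent conditions does not decrease with the degree. -/
theorem forms_mono (w : Fin n → ℕ) (P : Fin n → Fin 2 → K) {e e' : ℕ} (h : e ≤ e') :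
    (e + 2).choose 2 + Module.finrank K ↥(forms w P e') ≤
      (e' + 2).choose 2 + Module.finrank K ↥(forms w P e) := by
  have hq : ∀ i, Module.Finite K (Quo K (w i)) := fun i => quo_finite (w i)
  have h1 := rank_nullity w P e
  have h2 := rank_nullity w P e'
  have h3 := Submodule.finrank_mono (range_mono w P h)
  omega

theorem sys_forms (P : Fin n → Fin 2 → K) (d : ℕ) (w : Fin n → ℕ) : sys P d w = forms w P d := rfl

theorem sys_mono (w : Fin n → ℕ) (P : Fin n → Fin 2 → K) {e e' : ℕ} (h : e ≤ e') :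
    (e + 2).choose 2 + Module.finrank K ↥(sys P e' w) ≤
      (e' + 2).choose 2 + Module.finrank K ↥(sys P e w) := forms_mono w P h

theorem sys_le (w : Fin n → ℕ) (P : Fin n → Fin 2 → K) (e : ℕ) :
    Module.finrank K ↥(sys P e w) ≤ (e + 2).choose 2 := by
  have h1 := rank_nullity w P e
  rw [sys_forms]
  omega

theorem le_sys (w : Fin n → ℕ) (P : Fin n → Fin 2 → K) (e : ℕ) :
    (e + 2).choose 2 ≤ Module.finrank K ↥(sys P e w) + ∑ i, (w i + 1).choose 2 :=
  Pool.Agent.W609.CR.le_dim w P e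

end mono

/-- the virtual vector space dimension -/
def chi {n : ℕ} (d : ℕ) (w : Fin n → ℕ) : ℤ :=
  ((d + 2).choose 2 : ℤ) - ∑ i, ((w i + 1).choose 2 : ℤ)

theorem two_choose (a : ℕ) : 2 * ((a + 1).choose 2 : ℤ) = (a : ℤ) * (a + 1) := by
  have h := Nat.triangle_succ a
  have h2 : (a + 1).choose 2 = (a + 1) * a / 2 := by rw [Nat.choose_two_right]; rfl
  have h3 : 2 * (a + 1).choose 2 = (a + 1) * a := by
    rw [h2]
    exact Nat.mul_div_cancel' (Nat.even_mul_pred_self (a + 1)).two_dvd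
  have h4 : ((2 * (a + 1).choose 2 : ℕ) : ℤ) = (((a + 1) * a : ℕ) : ℤ) := by rw [h3]
  push_cast at h4
  rw [h4]
  ring

/-- The systems with multiplicities `w` at the points `P` whose virtual dimension is large have the
expected dimension. -/
def Ok {K : Type} [Field K] {n : ℕ} (P : Fin n → Fin 2 → K) (w : Fin n → ℕ) : Prop :=
  ∀ d μ : ℕ, (∀ i, w i ≤ μ) → 25000 * ((μ : ℤ) + 1) ^ 2 ≤ ∑ i, (w i : ℤ) + 4 * |chi d w| →
    (Module.finrank K ↥(sys P d w) : ℤ) = max 0 (chi d w)

section open_sets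

variable {K : Type} [Field K] [CharZero K] {n : ℕ}

/-- A vector `w` and its open set: every system with these multiplicities whose virtual dimension
is large has the expected dimension. -/
theorem exists_open (w : Fin n → ℕ) :
    ∃ F : MvPolynomial (Fin n × Fin 2) ℚ, F ≠ 0 ∧ ∀ {L : Type} [Field L] [CharZero L]
      (P : Fin n → Fin 2 → L), MvPolynomial.aeval (fun ij : Fin n × Fin 2 => P ij.1 ij.2) F ≠ 0 →
      Ok P w := by
  obtain ⟨F, hF, h⟩ := big_vectors w
  refine ⟨F, hF, fun {L} _ _ P hP d μ hw hb => ?_⟩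
  have h1 : Module.finrank L ↥(sys P d w) = (d + 2).choose 2 - ∑ i, (w i + 1).choose 2 := by
    refine h P hP d μ hw (Or.inl ?_)
    have h2 := gap_eq w d
    have h3 : ((25000 * (μ + 1) ^ 2 : ℕ) : ℤ) ≤ ((∑ p, w p + 2 * gap w d : ℕ) : ℤ) := by
      push_cast
      rw [h2]
      unfold chi at hb
      linarith
    exact_mod_cast h3
  have h2 : chi d w = ((d + 2).choose 2 : ℤ) - ((∑ i, (w i + 1).choose 2 : ℕ) : ℤ) := by
    unfold chi
    push_cast
    rfl
  rw [h1, h2]
  omega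

theorem ok_of_generic {P : Fin n → Fin 2 → K}
    (hP : AlgebraicIndependent ℚ (fun ij : Fin n × Fin 2 => P ij.1 ij.2)) (w : Fin n → ℕ) :
    Ok P w := by
  obtain ⟨F, hF, h⟩ := exists_open w
  exact h P fun h0 => hF (hP.eq_zero_of_aeval_eq_zero F h0)

end open_sets

section bounds

variable {K : Type} [Field K] {n : ℕ}

/-- Special systems are small. -/
theorem small_of_special {P : Fin n → Fin 2 → K}
    {w : Fin n → ℕ} (hP : Ok P w) {d μ : ℕ} (hw : ∀ i, w i ≤ μ)
    (h : (Module.finrank K ↥(sys P d w) : ℤ) ≠ max 0 (chi d w)) :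
    ∑ i, (w i : ℤ) + 4 * |chi d w| < 25000 * ((μ : ℤ) + 1) ^ 2 := by
  by_contra hcon
  exact h (hP d μ hw (not_lt.1 hcon))

theorem deg_bound {d μ : ℕ} {w : Fin n → ℕ} (hw : ∀ i, w i ≤ μ)
    (h : ∑ i, (w i : ℤ) + 4 * |chi d w| < 25000 * ((μ : ℤ) + 1) ^ 2) :
    ((d : ℤ) + 1) ^ 2 < 25000 * ((μ : ℤ) + 1) ^ 3 := by
  have h1 := two_choose (d + 1)
  have h2 : 2 * ∑ i, ((w i + 1).choose 2 : ℤ) ≤ ((μ : ℤ) + 1) * ∑ i, (w i : ℤ) := by
    rw [Finset.mul_sum, Finset.mul_sum]
    refine Finset.sum_le_sum fun i _ => ?_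
    rw [two_choose]
    have h3 : (w i : ℤ) ≤ μ := by exact_mod_cast hw i
    have h4 : (0 : ℤ) ≤ w i := Int.natCast_nonneg _
    nlinarith
  have h5 : chi d w ≤ |chi d w| := le_abs_self _
  have h6 : (0 : ℤ) ≤ |chi d w| := abs_nonneg _
  have h7 : 2 * chi d w = 2 * ((d + 2).choose 2 : ℤ) - 2 * ∑ i, ((w i + 1).choose 2 : ℤ) := by
    unfold chi
    ring
  have h8 : (0 : ℤ) ≤ μ := Int.natCast_nonneg _
  have h9 : (0 : ℤ) ≤ d := Int.natCast_nonneg _
  have h1' : 2 * ((d + 2).choose 2 : ℤ) = ((d : ℤ) + 1) * (d + 2) := by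
    rw [show d + 2 = (d + 1) + 1 by ring, h1]
    push_cast
    ring
  have h10 : ((d : ℤ) + 1) ^ 2 ≤ ((μ : ℤ) + 1) * (∑ i, (w i : ℤ) + 4 * |chi d w|) := by
    nlinarith
  have h11 : ((μ : ℤ) + 1) * (∑ i, (w i : ℤ) + 4 * |chi d w|) <
      ((μ : ℤ) + 1) * (25000 * ((μ : ℤ) + 1) ^ 2) := by
    apply mul_lt_mul_of_pos_left h
    linarith
  calc ((d : ℤ) + 1) ^ 2 ≤ _ := h10
    _ < _ := h11
    _ = _ := by ring

/-- **Special systems have `h¹ ≤ 6409 (μ + 1) ^ 2`.** -/
theorem hone_bound {P : Fin n → Fin 2 → K} {w : Fin n → ℕ} (hP : Ok P w) (d μ : ℕ)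
    (hw : ∀ i, w i ≤ μ) (hs : (Module.finrank K ↥(sys P d w) : ℤ) ≠ max 0 (chi d w)) :
    (Module.finrank K ↥(sys P d w) : ℤ) - chi d w ≤ 6409 * ((μ : ℤ) + 1) ^ 2 := by
  have hμ : (0 : ℤ) ≤ μ := Int.natCast_nonneg _
  have hsq : (0 : ℤ) ≤ ((μ : ℤ) + 1) ^ 2 := by positivity
  have h1 := small_of_special hP hw hs
  have h2 := deg_bound hw h1
  have hd : ((d : ℤ) + 1) ≤ 159 * ((μ : ℤ) + 1) ^ 2 := by
    by_contra hcon
    push Not at hcon
    have h3 : (159 * ((μ : ℤ) + 1) ^ 2) ^ 2 < ((d : ℤ) + 1) ^ 2 := by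
      apply pow_lt_pow_left₀ hcon (by positivity) (by norm_num)
    have h4 : ((μ : ℤ) + 1) ^ 3 ≤ ((μ : ℤ) + 1) ^ 4 :=
      pow_le_pow_right₀ (by linarith) (by norm_num)
    nlinarith
  have hsum : (0 : ℤ) ≤ ∑ i, (w i : ℤ) := Finset.sum_nonneg fun i _ => Int.natCast_nonneg _
  have habs : 4 * |chi d w| < 25000 * ((μ : ℤ) + 1) ^ 2 := by linarith
  have habs' := abs_lt.1 (show |chi d w| < 6250 * ((μ : ℤ) + 1) ^ 2 by linarith)
  -- the number of conditions
  obtain ⟨A, hA⟩ : ∃ A : ℕ, A = ∑ i, (w i + 1).choose 2 := ⟨_, rfl⟩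
  have hchi : ∀ e : ℕ, chi e w = ((e + 2).choose 2 : ℤ) - (A : ℤ) := by
    intro e
    unfold chi
    rw [hA]
    push_cast
    rfl
  obtain ⟨B, hB⟩ : ∃ B : ℕ, B = 6250 * (μ + 1) ^ 2 := ⟨_, rfl⟩
  have hB' : (B : ℤ) = 6250 * ((μ : ℤ) + 1) ^ 2 := by rw [hB]; push_cast; ring
  have hc := hchi d
  by_cases hsmall : A < 1 + B
  · have h5 := sys_le w P d
    have h5' : (Module.finrank K ↥(sys P d w) : ℤ) ≤ ((d + 2).choose 2 : ℤ) := by exact_mod_cast h5
    have h6 : (A : ℤ) < 1 + B := by exact_mod_cast hsmall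
    linarith
  · push Not at hsmall
    -- the first degree in the window
    have hex : ∃ e : ℕ, A < (e + 2).choose 2 + B := by
      refine ⟨d, ?_⟩
      have h8 : (A : ℤ) < ((d + 2).choose 2 : ℤ) + B := by rw [hB']; linarith [habs'.1]
      exact_mod_cast h8
    obtain ⟨e, he, hmin⟩ : ∃ e, A < (e + 2).choose 2 + B ∧ ∀ f < e, (f + 2).choose 2 + B ≤ A :=
      ⟨Nat.find hex, Nat.find_spec hex, fun f hf => not_lt.1 (Nat.find_min hex hf)⟩
    have hed : e ≤ d := by
      by_contra hcon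
      push Not at hcon
      have h8 := hmin d hcon
      have h9 : ((d + 2).choose 2 : ℤ) + B ≤ A := by exact_mod_cast h8
      rw [hB'] at h9
      linarith [habs'.1]
    have he0 : e ≠ 0 := by
      intro h0
      have h8 : (e + 2).choose 2 = 1 := by rw [h0]; rfl
      omega
    obtain ⟨f, rfl⟩ : ∃ f, e = f + 1 := ⟨e - 1, by omega⟩
    have hf := hmin f (by omega)
    have hcf := hchi f
    have hf' : ((f + 2).choose 2 : ℤ) + B ≤ A := by exact_mod_cast hf
    have hneg : chi f w ≤ -(6250 * ((μ : ℤ) + 1) ^ 2) := by rw [hcf, ← hB']; linarith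
    have h0 : (Module.finrank K ↥(sys P f w) : ℤ) = max 0 (chi f w) := by
      refine hP f μ hw ?_
      have h8 : |chi f w| = - chi f w := abs_of_nonpos (by linarith)
      rw [h8]
      linarith
    rw [max_eq_left (by linarith)] at h0
    have h9 := sys_mono w P (show f ≤ d by omega)
    have h10 : ((f + 2).choose 2 : ℤ) + (Module.finrank K ↥(sys P d w) : ℤ) ≤
        ((d + 2).choose 2 : ℤ) + (Module.finrank K ↥(sys P f w) : ℤ) := by exact_mod_cast h9
    rw [h0] at h10
    have h11 : (f + 1 + 2).choose 2 = (f + 2).choose 2 + (f + 2) := by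
      have := Nat.choose_succ_succ' (f + 2) 1
      rw [Nat.choose_one_right] at this
      rw [show f + 1 + 2 = f + 2 + 1 by ring, this]
      ring
    have he' : (A : ℤ) < ((f + 2).choose 2 : ℤ) + ((f : ℤ) + 2) + B := by
      have h12 := he
      rw [h11] at h12
      exact_mod_cast h12
    have h13 : (f : ℤ) + 1 ≤ d := by exact_mod_cast hed
    rw [hB'] at he'
    linarith

/-- **The superabundance is at most `6409 (μ + 1) ^ 2`.** -/
theorem superabundance {P : Fin n → Fin 2 → K} {w : Fin n → ℕ} (hP : Ok P w) (d μ : ℕ)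
    (hw : ∀ i, w i ≤ μ) :
    (Module.finrank K ↥(sys P d w) : ℤ) ≤ max 0 (chi d w) + 6409 * ((μ : ℤ) + 1) ^ 2 := by
  have hsq : (0 : ℤ) ≤ ((μ : ℤ) + 1) ^ 2 := by positivity
  by_cases hs : (Module.finrank K ↥(sys P d w) : ℤ) = max 0 (chi d w)
  · rw [hs]
    linarith
  have h1 := hone_bound hP d μ hw hs
  have h2 := le_max_right 0 (chi d w)
  linarith

/-- **Nonempty systems have `h¹ ≤ 6409 (μ + 1) ^ 2`.** -/
theorem hone_of_pos {P : Fin n → Fin 2 → K} {w : Fin n → ℕ} (hP : Ok P w) (d μ : ℕ)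
    (hw : ∀ i, w i ≤ μ) (hpos : 0 < Module.finrank K ↥(sys P d w)) :
    (Module.finrank K ↥(sys P d w) : ℤ) - chi d w ≤ 6409 * ((μ : ℤ) + 1) ^ 2 := by
  have hsq : (0 : ℤ) ≤ ((μ : ℤ) + 1) ^ 2 := by positivity
  by_cases hs : (Module.finrank K ↥(sys P d w) : ℤ) = max 0 (chi d w)
  · rcases max_choice (0 : ℤ) (chi d w) with h | h
    · rw [h] at hs
      omega
    · rw [h] at hs
      rw [hs]
      linarith
  exact hone_bound hP d μ hw hs

/-- **The degrees of the special systems with given multiplicities.** -/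
theorem special_degrees {P : Fin n → Fin 2 → K} {w : Fin n → ℕ} (hP : Ok P w) {d d' μ : ℕ}
    (hw : ∀ i, w i ≤ μ)
    (h : (Module.finrank K ↥(sys P d w) : ℤ) ≠ max 0 (chi d w))
    (h' : (Module.finrank K ↥(sys P d' w) : ℤ) ≠ max 0 (chi d' w)) (_hd : d ≤ d') :
    ((d' : ℤ) - d) * (d + d' + 3) + ∑ i, (w i : ℤ) < 25000 * ((μ : ℤ) + 1) ^ 2 := by
  have h1 := small_of_special hP hw h
  have h2 := small_of_special hP hw h'
  have h3 : ∀ e : ℕ, 2 * ((e + 2).choose 2 : ℤ) = ((e : ℤ) + 1) * (e + 2) := by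
    intro e
    have h4 := two_choose (e + 1)
    rw [show e + 2 = (e + 1) + 1 by ring, h4]
    push_cast
    ring
  have h4 : 2 * (chi d' w - chi d w) = ((d' : ℤ) - d) * (d + d' + 3) := by
    unfold chi
    linear_combination h3 d' - h3 d
  have h5 := le_abs_self (chi d' w)
  have h6 := neg_abs_le (chi d w)
  rw [← h4]
  linarith

end bounds

end Pool.Agent.R873.SB
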