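import Pool.Agent.H932R5.Dim

set_option autoImplicit false

/-!
# The number of independent conditions in projective spaces

The number of independent conditions imposed by multiple points does not decrease with the degree,
and the dimension of the space of forms is constant on an open set of positions of the points.
-/

namespace Pool.Agent.R873.SB

open MvPolynomial Pool.Agent.H932R5

variable {K : Type*} [Field K] {E n : ℕ}

theorem finite_Td (e : ℕ) : FiniteDimensional K ↥(mspan K (Td E e)) := by
  rw [← coe_dg]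
  exact finite_mspan _

theorem finrank_Td (e : ℕ) :
    Module.finrank K ↥(mspan K (Td E e)) = (e + E + 1).choose (E + 1) := by
  rw [← coe_dg, finrank_mspan, card_dg, show e + 1 + E = e + E + 1 by ring]

/-- The number of independent conditions does not decrease with the degree. -/
theorem vd_mono (w : Fin n → ℕ) (P : Fin n → Fin (E + 1) → K) {d d' : ℕ} (h : d ≤ d') :
    (d + E + 1).choose (E + 1) + Module.finrank K ↥(Vd d' w P) ≤
      (d' + E + 1).choose (E + 1) + Module.finrank K ↥(Vd d w P) := by
  rw [finrank_Vd_eq, finrank_Vd_eq]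
  have hle : mspan K (Td E d) ≤ mspan K (Td E d') := by
    refine mspan_mono fun s hs => ?_
    have hs' : Finsupp.degree s ≤ d := hs
    exact hs'.trans h
  have hf1 : FiniteDimensional K ↥(mspan K (Td E d)) := finite_Td d
  have hf2 : FiniteDimensional K ↥(mspan K (Td E d')) := finite_Td d'
  have h1 := Submodule.finrank_sup_add_finrank_inf_eq (mspan K (Td E d))
    (mspan K (Td E d') ⊓ Submodule.restrictScalars K (Z w P))
  have h2 : mspan K (Td E d) ⊓ (mspan K (Td E d') ⊓ Submodule.restrictScalars K (Z w P)) =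
      mspan K (Td E d) ⊓ Submodule.restrictScalars K (Z w P) := by
    rw [← inf_assoc, inf_eq_left.2 hle]
  have h3 : Module.finrank K ↥(mspan K (Td E d) ⊔
      (mspan K (Td E d') ⊓ Submodule.restrictScalars K (Z w P))) ≤
      Module.finrank K ↥(mspan K (Td E d')) :=
    Submodule.finrank_mono (sup_le hle inf_le_left)
  rw [h2, finrank_Td] at h1
  rw [finrank_Td] at h3
  omega

theorem vd_le (w : Fin n → ℕ) (P : Fin n → Fin (E + 1) → K) (d : ℕ) :
    Module.finrank K ↥(Vd d w P) ≤ (d + E + 1).choose (E + 1) := by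
  rw [finrank_Vd_eq, ← finrank_Td (K := K)]
  have hf1 : FiniteDimensional K ↥(mspan K (Td E d)) := finite_Td d
  exact Submodule.finrank_mono inf_le_left

/-- The dimension is constant on an open set. -/
theorem exists_generic (w : Fin n → ℕ) (d : ℕ) :
    ∃ (F : MvPolynomial (Fin n × Fin (E + 1)) K) (h : ℕ), F ≠ 0 ∧
      ∀ P : Fin n → Fin (E + 1) → K,
        eval (fun q : Fin n × Fin (E + 1) => P q.1 q.2) F ≠ 0 →
        Module.finrank K ↥(Vd d w P) = h := by
  classical
  obtain ⟨x, hx⟩ : ∃ x : Fin n → Fin (E + 1) → K, ∀ P : Fin n → Fin (E + 1) → K,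
      Module.finrank K ↥(Vd d w x) ≤ Module.finrank K ↥(Vd d w P) := by
    obtain ⟨x, hx⟩ := Nat.sInf_mem (Set.range_nonempty
      (fun P : Fin n → Fin (E + 1) → K => Module.finrank K ↥(Vd d w P)))
    refine ⟨x, fun P => ?_⟩
    have hx' : Module.finrank K ↥(Vd d w x) = _ := hx
    rw [hx']
    exact Nat.sInf_le ⟨P, rfl⟩
  have hfin := finite_mspan (K := K) (dg E (d + 1))
  let L : (Fin n → Fin (E + 1) → K) →
      ↥(mspan K (↑(dg E (d + 1)) : Set (Fin (E + 1) →₀ ℕ))) →ₗ[K] (Cnd E w → K) := fun P =>
    (cnd w P).comp (Submodule.subtype _)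
  have hL : ∀ P f, L P f = cnd w P f.1 := fun _ _ => rfl
  have hker : ∀ P, Module.finrank K (LinearMap.ker (L P)) = Module.finrank K ↥(Vd d w P) := by
    intro P
    rw [finrank_Vd_eq, ← coe_dg]
    refine LinearEquiv.finrank_eq (LinearEquiv.ofBijective
      { toFun := fun f => ⟨f.1.1, Submodule.mem_inf.2 ⟨f.1.2, mem_Z_iff.2 f.2⟩⟩
        map_add' := fun f g => rfl
        map_smul' := fun a f => rfl } ⟨?_, ?_⟩)
    · intro f g hfg
      have h : f.1.1 = g.1.1 :=
        congrArg (fun z : ↥(mspan K (↑(dg E (d + 1)) : Set (Fin (E + 1) →₀ ℕ)) ⊓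
          Submodule.restrictScalars K (Z w P)) => (z : MvPolynomial (Fin (E + 1)) K)) hfg
      exact Subtype.ext (Subtype.ext h)
    · rintro ⟨f, hf⟩
      rw [Submodule.mem_inf] at hf
      exact ⟨⟨⟨f, hf.1⟩, mem_Z_iff.1 hf.2⟩, rfl⟩
  have hrk : ∀ P, Module.finrank K (LinearMap.range (L P)) + Module.finrank K ↥(Vd d w P) =
      (d + E + 1).choose (E + 1) := by
    intro P
    have h1 := LinearMap.finrank_range_add_finrank_ker (L P)
    rw [hker, finrank_mspan, card_dg] at h1
    rw [h1, show d + 1 + E = d + E + 1 by ring]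
  let B := Module.finBasis K (LinearMap.range (L x))
  have hb : ∀ a, ∃ b, L x b = (B a : Cnd E w → K) := fun a => (B a).2
  choose b hb using hb
  obtain ⟨F, hF, hF'⟩ := exists_open (w := w)
    (fun a => (b a : MvPolynomial (Fin (E + 1)) K)) x (by
      intro c hc a
      rw [mem_Z_iff, map_sum] at hc
      have h1 : ∑ a, c a • (B a : Cnd E w → K) = 0 := by
        rw [← hc]
        refine Finset.sum_congr rfl fun a _ => ?_
        rw [map_smul, ← hb, hL]
      have h2 := B.linearIndependent.map' (Submodule.subtype _) (Submodule.ker_subtype _)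
      exact Fintype.linearIndependent_iff.1 h2 c h1 a)
  refine ⟨F, Module.finrank K ↥(Vd d w x), hF, fun P hP => le_antisymm ?_ (hx P)⟩
  have hli : LinearIndependent K (fun a => L P (b a)) := by
    rw [Fintype.linearIndependent_iff]
    intro c hc
    refine hF' P hP c ?_
    rw [mem_Z_iff, map_sum, ← hc]
    exact Finset.sum_congr rfl fun i _ => by rw [map_smul, hL]
  have h5 := finrank_span_eq_card hli
  rw [Fintype.card_fin] at h5
  have h6 : Module.finrank K (LinearMap.range (L x)) ≤
      Module.finrank K (LinearMap.range (L P)) := by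
    rw [← h5]
    refine Submodule.finrank_mono (Submodule.span_le.2 ?_)
    rintro _ ⟨i, rfl⟩
    exact ⟨_, rfl⟩
  have h7 := hrk P
  have h8 := hrk x
  omega

end Pool.Agent.R873.SB
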