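import Pool.Agent.TH3.IR.Proj
import Pool.Agent.H932R5.Points
import Pool.Agent.R873.SB.PMono

set_option autoImplicit false

/-!
# Spaces of forms at general points of projective space
-/

namespace Pool.Agent.R873.SB

open MvPolynomial
open scoped LinearAlgebra.Projectivization
open Pool.Agent.H350R3.MG Pool.Agent.TH3.IR

/-- the forms of degree `d` with multiplicities `w` at points of projective space -/
noncomputable def pf {n k : ℕ} (d : ℕ) (w : Fin k → ℕ) (P : Fin k → ℙ ℂ (Fin (n + 1) → ℂ)) :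
    Submodule ℂ (MvPolynomial (Fin (n + 1)) ℂ) :=
  homogeneousSubmodule (Fin (n + 1)) ℂ d ⊓
    Submodule.restrictScalars ℂ (⨅ i, primeIdeal (P i) ^ w i : Ideal (MvPolynomial (Fin (n + 1)) ℂ))

theorem pf_cons {E k : ℕ} (d : ℕ) (w : Fin k → ℕ) (P : Fin k → Fin (E + 1) → ℂ)
    (hv : ∀ i, (Fin.cons 1 (P i) : Fin (E + 1 + 1) → ℂ) ≠ 0) :
    pf d w (fun i => Projectivization.mk ℂ (Fin.cons 1 (P i) : Fin (E + 1 + 1) → ℂ) (hv i)) =
      H932R5.Vd d w P := by
  unfold pf H932R5.Vd H932R5.hI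
  congr 2
  refine iInf_congr fun i => ?_
  rw [primeIdeal_cons]

/-- A property of general points holds for some points of the affine chart outside of a given
hypersurface. -/
theorem exists_affine {n k : ℕ} {Q : (Fin k → ℙ ℂ (Fin (n + 1) → ℂ)) → Prop} (hQ : Generally Q)
    (G : MvPolynomial (Fin k × Fin n) ℂ) (hG : G ≠ 0) :
    ∃ (P : Fin k → Fin n → ℂ) (hv : ∀ i, (Fin.cons 1 (P i) : Fin (n + 1) → ℂ) ≠ 0),
      eval (fun x : Fin k × Fin n => P x.1 x.2) G ≠ 0 ∧
        Q (fun i => Projectivization.mk ℂ (Fin.cons 1 (P i) : Fin (n + 1) → ℂ) (hv i)) := by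
  obtain ⟨U, ⟨S, hS⟩, ⟨P1, hP1⟩, hU⟩ := hQ
  have hrep : (fun i => Projectivization.mk ℂ (P1 i).rep (P1 i).rep_nonzero) = P1 :=
    funext fun i => (P1 i).mk_rep
  obtain ⟨f, hfS, hf⟩ := (hS (fun i => (P1 i).rep) (fun i => (P1 i).rep_nonzero)).1
    (by rw [hrep]; exact hP1)
  have hf0 : f ≠ 0 := by
    rintro rfl
    exact hf (map_zero _)
  obtain ⟨K, Φ, hΦ⟩ := exists_homog G
  have hcons : ∀ p : Fin n → ℂ, (Fin.cons 1 p : Fin (n + 1) → ℂ) ≠ 0 := by
    intro p h0
    have := congrFun h0 0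
    simp at this
  have hne : Φ * ∏ i : Fin k, X (i, (0 : Fin (n + 1))) ≠ 0 := by
    obtain ⟨w, hw⟩ : ∃ w : Fin k × Fin n → ℂ, eval w G ≠ 0 := by
      by_contra hcon
      push Not at hcon
      exact hG (MvPolynomial.funext fun w => by rw [hcon w, map_zero])
    intro h0
    have h1 := hΦ (fun i => Fin.cons 1 (fun j => w (i, j))) (fun i => by simp)
    have h2 := congrArg (eval (fun x : Fin k × Fin (n + 1) =>
      (Fin.cons 1 (fun j => w (x.1, j)) : Fin (n + 1) → ℂ) x.2)) h0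
    rw [map_mul, map_zero, h1, map_prod] at h2
    simp at h2
    exact hw h2
  obtain ⟨w, hw⟩ : ∃ w : Fin k × Fin (n + 1) → ℂ,
      eval w (f * (Φ * ∏ i : Fin k, X (i, (0 : Fin (n + 1))))) ≠ 0 := by
    by_contra hcon
    push Not at hcon
    exact mul_ne_zero hf0 hne (MvPolynomial.funext fun w => by rw [hcon w, map_zero])
  obtain ⟨v, rfl⟩ : ∃ v : Fin k → Fin (n + 1) → ℂ,
      w = fun x : Fin k × Fin (n + 1) => v x.1 x.2 := ⟨fun i j => w (i, j), rfl⟩
  rw [map_mul, map_mul, map_prod] at hw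
  have hw1 := left_ne_zero_of_mul hw
  have hw2 := right_ne_zero_of_mul hw
  have hw3 := left_ne_zero_of_mul hw2
  have h0 : ∀ i, v i 0 ≠ 0 := by
    intro i
    have := Finset.prod_ne_zero_iff.1 (right_ne_zero_of_mul hw2) i (Finset.mem_univ i)
    rwa [eval_X] at this
  have hv : ∀ i, v i ≠ 0 := fun i h => h0 i (by rw [h]; rfl)
  rw [hΦ v h0] at hw3
  refine ⟨fun i j => v i j.succ / v i 0, fun i => hcons _, right_ne_zero_of_mul hw3, ?_⟩
  have h4 : (fun i => Projectivization.mk ℂ (v i) (hv i)) = fun i => Projectivization.mk ℂ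
      (Fin.cons 1 (fun j => v i j.succ / v i 0) : Fin (n + 1) → ℂ) (hcons _) := by
    funext i
    rw [Projectivization.mk_eq_mk_iff']
    refine ⟨v i 0, ?_⟩
    funext j
    refine Fin.cases ?_ (fun j => ?_) j
    · simp
    · simp only [Pi.smul_apply, Fin.cons_succ, smul_eq_mul]
      field_simp [h0 i]
  rw [← h4]
  exact hU _ ((hS v hv).2 ⟨f, hfS, hw1⟩)

/-- **The dimension at general points**: the general value, and its bound by the forms of a degree
in which there are no forms with these multiplicities. -/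
theorem value {r k : ℕ} (hr : 1 ≤ r) (w : Fin k → ℕ) (d : ℕ) :
    ∃ h : ℕ, Generally (fun P : Fin k → ℙ ℂ (Fin (r + 1) → ℂ) =>
        Module.finrank ℂ ↥(pf d w P) = h) ∧
      (d + r).choose r ≤ h + ∑ i, (w i + r - 1).choose r ∧ h ≤ (d + r).choose r ∧
      (∀ e : ℕ, e ≤ d → Generally (fun P : Fin k → ℙ ℂ (Fin (r + 1) → ℂ) => pf e w P = ⊥) →
        h + (e + r).choose r ≤ (d + r).choose r) ∧
      (∀ Q : (Fin k → ℙ ℂ (Fin (r + 1) → ℂ)) → Prop, Generally Q →
        ∃ P, Q P ∧ Module.finrank ℂ ↥(pf d w P) = h) := by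
  obtain ⟨E, rfl⟩ : ∃ E, r = E + 1 := ⟨r - 1, by omega⟩
  obtain ⟨G, h, hG, hgen⟩ := exists_generic (K := ℂ) (E := E) w d
  have e2 : ∀ e : ℕ, e + (E + 1) = e + E + 1 := fun e => by omega
  have h1 : Generally (fun P : Fin k → ℙ ℂ (Fin (E + 1 + 1) → ℂ) =>
      Module.finrank ℂ ↥(pf d w P) = h) := by
    refine generally_of_affine G hG fun P hv hP => ?_
    rw [pf_cons]
    exact hgen P hP
  simp only [e2, Nat.add_sub_cancel]
  obtain ⟨x, hx⟩ : ∃ x : Fin k × Fin (E + 1) → ℂ, eval x G ≠ 0 := by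
    by_contra hcon
    push Not at hcon
    exact hG (MvPolynomial.funext fun w => by rw [hcon w, map_zero])
  have hx0 := hgen (fun i j => x (i, j)) hx
  refine ⟨h, h1, ?_, ?_, fun e he hQ => ?_, fun Q hQ => ?_⟩
  · have h2 := H932R5.finrank_ge d w (fun i j => x (i, j))
    rw [hx0] at h2
    omega
  · have h2 := vd_le w (fun i j => x (i, j)) d
    rw [hx0] at h2
    exact h2
  · obtain ⟨P, hv, hP, hPe⟩ := exists_affine hQ G hG
    rw [pf_cons] at hPe
    have h2 := vd_mono w P he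
    rw [hPe, finrank_bot, hgen P hP] at h2
    omega
  · obtain ⟨P, hv, hP, hPQ⟩ := exists_affine hQ G hG
    refine ⟨_, hPQ, ?_⟩
    rw [pf_cons]
    exact hgen P hP

end Pool.Agent.R873.SB
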