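import Mathlib

set_option autoImplicit false

/-!
# Inequalities for binomial coefficients
-/

namespace Pool.Agent.R873.SB

open Finset

theorem fact_choose (n e : ℕ) :
    (n.factorial : ℝ) * ((e + n).choose n : ℝ) = ∏ j ∈ range n, ((e : ℝ) + 1 + j) := by
  have h1 := Nat.ascFactorial_eq_factorial_mul_choose e n
  rw [Nat.ascFactorial_eq_prod_range] at h1
  have h3 : ((∏ i ∈ range n, (e + 1 + i) : ℕ) : ℝ) = ((n.factorial * (e + n).choose n : ℕ) : ℝ) := by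
    rw [h1]
  push_cast at h3
  rw [← h3]

theorem fact_choose' (n m : ℕ) (hn : 1 ≤ n) :
    (n.factorial : ℝ) * ((m + n - 1).choose n : ℝ) = ∏ j ∈ range n, ((m : ℝ) + j) := by
  rcases m with _ | m
  · rw [Nat.choose_eq_zero_of_lt (by omega)]
    rw [prod_eq_zero (mem_range.2 hn) (by simp)]
    simp
  · have h := fact_choose n m
    rw [show m + 1 + n - 1 = m + n by omega, h]
    refine prod_congr rfl fun j _ => ?_
    push_cast
    ring

theorem prod_lower (n e : ℕ) (y : ℝ) (hy : 0 ≤ y) (h : y ≤ e + 1) :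
    ∏ j ∈ range n, (y + j) ≤ (n.factorial : ℝ) * ((e + n).choose n : ℝ) := by
  rw [fact_choose]
  exact prod_le_prod (fun j _ => by positivity) fun j _ => by linarith

theorem prod_diff (ρ x M : ℝ) (hρ : 1 ≤ ρ) (hx : 0 ≤ x) (k : ℕ) (hM : x + k ≤ M + 1) :
    ∏ j ∈ range k, (ρ * (x + j)) - ∏ j ∈ range k, (ρ * x + j) ≤
      ρ ^ k * M ^ (k - 1) * ((k : ℝ) * (k - 1) / 2) := by
  induction k with
  | zero => simp
  | succ k ih =>
    rw [prod_range_succ, prod_range_succ]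
    push_cast at hM ⊢
    have hk : (0 : ℝ) ≤ k := Nat.cast_nonneg k
    have h1 := ih (by linarith)
    rcases Nat.eq_zero_or_pos k with rfl | hpos
    · simp
    obtain ⟨l, rfl⟩ : ∃ l, k = l + 1 := ⟨k - 1, by omega⟩
    have hM0 : 0 ≤ M := by linarith
    have hxM : x + (l + 1 : ℕ) ≤ M := by linarith
    have hB : ∏ j ∈ range (l + 1), (ρ * x + j) ≤ (ρ * M) ^ (l + 1) := by
      rw [← card_range (l + 1), ← prod_const, card_range]
      refine prod_le_prod (fun j _ => by positivity) fun j hj => ?_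
      have h2 : (j : ℝ) ≤ (l + 1 : ℕ) := by
        exact_mod_cast (mem_range.1 hj).le
      have h3 : (j : ℝ) ≤ ρ * j := by nlinarith [(Nat.cast_nonneg j : (0 : ℝ) ≤ j)]
      nlinarith
    have hB0 : 0 ≤ ∏ j ∈ range (l + 1), (ρ * x + j) := prod_nonneg fun j _ => by positivity
    rw [Nat.add_sub_cancel] at h1
    have hbd : 0 ≤ ρ ^ (l + 1) * M ^ l * ((((l + 1 : ℕ) : ℝ)) * ((l + 1 : ℕ) - 1) / 2) := by
      push_cast
      have : (0 : ℝ) ≤ l := Nat.cast_nonneg l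
      have h4 : (0 : ℝ) ≤ (l : ℝ) + 1 - 1 := by linarith
      positivity
    have h5 : (∏ j ∈ range (l + 1), (ρ * (x + j)) - ∏ j ∈ range (l + 1), (ρ * x + j)) *
        (ρ * (x + (l + 1 : ℕ))) ≤
        ρ ^ (l + 1) * M ^ l * ((((l + 1 : ℕ) : ℝ)) * ((l + 1 : ℕ) - 1) / 2) * (ρ * M) := by
      have h6 : 0 ≤ ρ * (x + (l + 1 : ℕ)) := by positivity
      refine (mul_le_mul_of_nonneg_right h1 h6).trans ?_
      refine mul_le_mul_of_nonneg_left ?_ hbd
      exact mul_le_mul_of_nonneg_left hxM (by linarith)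
    have h7 : (∏ j ∈ range (l + 1), (ρ * x + j)) * ((ρ - 1) * (l + 1 : ℕ)) ≤
        (ρ * M) ^ (l + 1) * (ρ * (l + 1 : ℕ)) := by
      have h8 : (0 : ℝ) ≤ (l + 1 : ℕ) := Nat.cast_nonneg _
      refine mul_le_mul hB ?_ (mul_nonneg (by linarith) h8) (by positivity)
      exact mul_le_mul_of_nonneg_right (by linarith) h8
    calc (∏ j ∈ range (l + 1), (ρ * (x + j))) * (ρ * (x + (l + 1 : ℕ))) -
          (∏ j ∈ range (l + 1), (ρ * x + j)) * (ρ * x + (l + 1 : ℕ))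
        = (∏ j ∈ range (l + 1), (ρ * (x + j)) - ∏ j ∈ range (l + 1), (ρ * x + j)) *
            (ρ * (x + (l + 1 : ℕ))) +
          (∏ j ∈ range (l + 1), (ρ * x + j)) * ((ρ - 1) * (l + 1 : ℕ)) := by ring
      _ ≤ ρ ^ (l + 1) * M ^ l * ((((l + 1 : ℕ) : ℝ)) * ((l + 1 : ℕ) - 1) / 2) * (ρ * M) +
          (ρ * M) ^ (l + 1) * (ρ * (l + 1 : ℕ)) := add_le_add h5 h7
      _ = ρ ^ (l + 1 + 1) * M ^ (l + 1) *
          ((((l + 1 : ℕ) : ℝ) + 1) * (((l + 1 : ℕ) : ℝ) + 1 - 1) / 2) := by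
        push_cast
        ring

end Pool.Agent.R873.SB
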