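import Pool.Agent.R873.SB.Two
import Pool.Agent.TH167.SH.Fam
import Pool.Agent.TH167.SH.Gen
import Pool.Agent.TH167.SH.Conv

set_option autoImplicit false

/-!
# The dimension of an arbitrary system up to an error in terms of its standard form
-/

namespace Pool.Agent.R873.SB

open MvPolynomial Pool.Agent.TH167 Pool.Agent.TH167.SHDefs

theorem virt_chi {n : ℕ} (d : ℕ) (w : Fin n → ℕ) : virtdim d w = chi d w - 1 := by
  unfold virtdim chi
  ring

theorem sh_chi {n : ℕ} (d : ℕ) (w : Fin n → ℕ) : SH.chi d w = chi d w := rfl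

theorem two_ch (a : ℕ) : (a : ℤ) * ((a : ℤ) - 1) = 2 * ((a.choose 2 : ℕ) : ℤ) := by
  rcases Nat.eq_zero_or_pos a with rfl | h
  · simp
  · obtain ⟨b, rfl⟩ : ∃ b, a = b + 1 := ⟨a - 1, by omega⟩
    have := two_choose b
    push_cast
    linear_combination -this

/-- **The dimension of a system up to an error in terms of its standard form.** -/
theorem std_form {K : Type} [Field K] [CharZero K] {r : ℕ} {P : Fin (r + 4) → Fin 2 → K}
    (hP : AlgebraicIndependent ℚ (fun ij : Fin (r + 4) × Fin 2 => P ij.1 ij.2)) (d : ℕ)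
    (w : Fin (r + 4) → ℕ) (hpos : 0 ≤ dimL P d w) :
    ∃ (d' : ℕ) (w' : Fin (r + 4) → ℕ) (k : ℕ) (G : Fin k → MvPolynomial (Fin 3) K)
      (e : Fin k → ℕ) (u : Fin k → Fin (r + 4) → ℕ) (N : Fin k → ℕ) (d1 : ℕ)
      (w1 : Fin (r + 4) → ℕ),
      Decomp P d w d' w' G e u N ∧ Relation.ReflTransGen Quadratic (d', w') (d1, w1) ∧
      (∀ i j k : Fin (r + 4), i ≠ j → i ≠ k → j ≠ k → w1 i + w1 j + w1 k ≤ d1) ∧
      dimL P d' w' = dimL P d w ∧ dimL P d1 w1 = dimL P d w ∧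
      virtdim d1 w1 = virtdim d w + ∑ a, ((N a).choose 2 : ℤ) ∧
      virtdim d1 w1 ≤ dimL P d w ∧
      (∀ μ : ℕ, (∀ i, w1 i ≤ μ) →
        dimL P d w ≤ virtdim d1 w1 + 6409 * ((μ : ℤ) + 1) ^ 2 ∧
        (virtdim d1 w1 < dimL P d w →
          ∑ i, (w1 i : ℤ) + 4 * |virtdim d1 w1 + 1| < 25000 * ((μ : ℤ) + 1) ^ 2)) := by
  classical
  have hpos' : 0 < Module.finrank K ↥(W609.CR.VS (fun j => W609.CR.aff (P j)) w d) := by
    have h := SH.dimL_eq P d w
    rw [h] at hpos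
    omega
  obtain ⟨M, hM⟩ : ∃ M, ∀ j, w j ≤ M := ⟨∑ j, w j, fun j =>
    Finset.single_le_sum (fun _ _ => Nat.zero_le _) (Finset.mem_univ j)⟩
  have hw : SH.Few M d w := by
    left
    rw [Finset.filter_false_of_mem fun j _ => not_lt.2 (hM j)]
    simp
  obtain ⟨d', w', k, C0, e, u, N, hD, hdim, P1, d1, w1, hP1, hchain, -, hred, hdim1⟩ :=
    SH.main d P hP w hw hpos'
  obtain ⟨g1, F1, hF1, hg1⟩ := SH.dim_gen w1 d1
  have hsame : Module.finrank K ↥(W609.CR.VS (fun j => W609.CR.aff (P j)) w1 d1) =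
      Module.finrank K ↥(W609.CR.VS (fun j => W609.CR.aff (P1 j)) w1 d1) := by
    rw [hg1 K P fun h0 => hF1 (hP.eq_zero_of_aeval_eq_zero F1 h0),
      hg1 K P1 fun h0 => hF1 (hP1.eq_zero_of_aeval_eq_zero F1 h0)]
  have hDcp : SH.Dcp P d w d' w' C0 e u N := ⟨hD.exc, hD.pos, hD.orth, hD.deg, hD.mul, hD.zero⟩
  have e1 : dimL P d' w' = dimL P d w := by
    rw [SH.dimL_eq, SH.dimL_eq, hdim]
  have e2 : dimL P d1 w1 = dimL P d w := by
    rw [SH.dimL_eq, SH.dimL_eq, hsame, hdim1, hdim]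
  have hchi1 : chi d1 w1 = chi d' w' := (SH.quad_inv hchain).1
  have hchi2 : 2 * chi d' w' = 2 * chi d w + ∑ a, (N a : ℤ) * ((N a : ℤ) - 1) := hDcp.chi_eq
  have e3 : virtdim d1 w1 = virtdim d w + ∑ a, ((N a).choose 2 : ℤ) := by
    have h1 : ∑ a, (N a : ℤ) * ((N a : ℤ) - 1) = 2 * ∑ a, ((N a).choose 2 : ℤ) := by
      rw [Finset.mul_sum]
      exact Finset.sum_congr rfl fun a _ => two_ch (N a)
    rw [virt_chi, virt_chi]
    rw [h1] at hchi2
    linarith
  have hfin : dimL P d w = (Module.finrank K ↥(sys P d1 w1) : ℤ) - 1 := by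
    rw [← e2]
    rfl
  have hle := SH.chi_le_dim P d1 w1
  rw [← SH.sys_eq] at hle
  have hpos1 : 0 < Module.finrank K ↥(sys P d1 w1) := by omega
  refine ⟨d', w', k, C0, e, u, N, d1, w1, SH.decomp_iff.2 hDcp, SH.chain_conv hchain, hred, e1,
    e2, e3, ?_, fun μ hμ => ⟨?_, fun hlt => ?_⟩⟩
  · rw [hfin, virt_chi]
    rw [sh_chi] at hle
    linarith
  · have h1 := hone_of_pos (ok_of_generic hP w1) d1 μ hμ hpos1
    rw [hfin, virt_chi]
    linarith
  · have h1 : (Module.finrank K ↥(sys P d1 w1) : ℤ) ≠ max 0 (chi d1 w1) := by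
      intro h2
      rw [hfin, virt_chi] at hlt
      rcases max_choice (0 : ℤ) (chi d1 w1) with h | h
      · rw [h] at h2
        omega
      · rw [h] at h2
        linarith
    have h2 := small_of_special (ok_of_generic hP w1) hμ h1
    rw [virt_chi]
    simpa using h2

end Pool.Agent.R873.SB
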