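import Pool.Agent.R873.SB.Core

set_option autoImplicit false

/-!
# Two points of the same multiplicity: the bounds for the superabundance have the right order
-/

namespace Pool.Agent.R873.SB

open MvPolynomial Pool.Agent.TH167.SHDefs

variable {K : Type} [Field K] {n : ℕ}

/-- the line through two points -/
noncomputable def line (p q : Fin 2 → K) : MvPolynomial (Fin 3) K :=
  C (p 1 - q 1) * X 0 - C (p 0 - q 0) * X 1 + C (p 0 * q 1 - p 1 * q 0) * X 2

theorem line_hom (p q : Fin 2 → K) : (line p q).IsHomogeneous 1 := by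
  unfold line
  refine ((((isHomogeneous_X K (0 : Fin 3)).C_mul _)).sub
    ((isHomogeneous_X K (1 : Fin 3)).C_mul _)).add ((isHomogeneous_X K (2 : Fin 3)).C_mul _)

theorem line_left (p q : Fin 2 → K) : line p q ∈ pt p := by
  have h : line p q = C (p 1 - q 1) * (X 0 - C (p 0) * X 2) +
      (- C (p 0 - q 0)) * (X 1 - C (p 1) * X 2) := by
    unfold line
    simp only [map_sub, map_mul]
    ring
  rw [h]
  exact Ideal.add_mem _ (Ideal.mul_mem_left _ _ (Ideal.subset_span (Set.mem_insert _ _)))
    (Ideal.mul_mem_left _ _ (Ideal.subset_span (Set.mem_insert_of_mem _ rfl)))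

theorem line_right (p q : Fin 2 → K) : line p q ∈ pt q := by
  have h : line p q = C (p 1 - q 1) * (X 0 - C (q 0) * X 2) +
      (- C (p 0 - q 0)) * (X 1 - C (q 1) * X 2) := by
    unfold line
    simp only [map_sub, map_mul]
    ring
  rw [h]
  exact Ideal.add_mem _ (Ideal.mul_mem_left _ _ (Ideal.subset_span (Set.mem_insert _ _)))
    (Ideal.mul_mem_left _ _ (Ideal.subset_span (Set.mem_insert_of_mem _ rfl)))

theorem line_ne {p q : Fin 2 → K} (h : p ≠ q) : line p q ≠ 0 := by
  intro h0
  apply h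
  have e0 : coeff (Finsupp.single (0 : Fin 3) 1) (line p q) = p 1 - q 1 := by
    unfold line
    rw [coeff_add, coeff_sub, coeff_C_mul, coeff_C_mul, coeff_C_mul, coeff_X, coeff_X, coeff_X,
      if_pos rfl, if_neg, if_neg]
    · ring
    · rw [Finsupp.single_left_inj one_ne_zero]
      decide
    · rw [Finsupp.single_left_inj one_ne_zero]
      decide
  have e1 : coeff (Finsupp.single (1 : Fin 3) 1) (line p q) = -(p 0 - q 0) := by
    unfold line
    rw [coeff_add, coeff_sub, coeff_C_mul, coeff_C_mul, coeff_C_mul, coeff_X, coeff_X, coeff_X,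
      if_pos rfl, if_neg, if_neg]
    · ring
    · rw [Finsupp.single_left_inj one_ne_zero]
      decide
    · rw [Finsupp.single_left_inj one_ne_zero]
      decide
  rw [h0, coeff_zero] at e0 e1
  funext k
  fin_cases k
  · show p 0 = q 0
    linear_combination e1
  · show p 1 = q 1
    linear_combination -e0

/-- the multiplicity `m` at two of the points -/
def two (i j : Fin n) (m : ℕ) : Fin n → ℕ := fun l => if l = i ∨ l = j then m else 0

theorem two_le (i j : Fin n) (m : ℕ) (l : Fin n) : two i j m l ≤ m := by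
  unfold two
  split_ifs <;> omega

theorem sum_two {i j : Fin n} (hij : i ≠ j) (m : ℕ) (g : ℕ → ℕ) (h0 : g 0 = 0) :
    ∑ l, g (two i j m l) = 2 * g m := by
  classical
  have h1 : ∀ l, g (two i j m l) = (if l = i then g m else 0) + (if l = j then g m else 0) := by
    intro l
    unfold two
    by_cases hi : l = i
    · have hj : l ≠ j := fun h => hij (hi.symm.trans h)
      simp [hi, hij]
    · by_cases hj : l = j
      · simp [hj, Ne.symm hij]
      · simp [hi, hj, h0]
  rw [Finset.sum_congr rfl fun l _ => h1 l, Finset.sum_add_distrib, Finset.sum_ite_eq',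
    Finset.sum_ite_eq']
  simp
  ring

theorem two_lower {P : Fin n → Fin 2 → K} {i j : Fin n} (hP : P i ≠ P j) (t N : ℕ) :
    (t + 1) ^ 2 ≤ Module.finrank K ↥(sys P (2 * t + N) (two i j (t + N))) := by
  classical
  have hij : i ≠ j := fun h => hP (by rw [h])
  have h1 : (t + 1) ^ 2 ≤ Module.finrank K ↥(sys P (2 * t) (two i j t)) := by
    have h2 := le_sys (two i j t) P (2 * t)
    have h3 := sum_two hij t (fun a => (a + 1).choose 2) rfl
    rw [h3] at h2
    have h4 := two_choose t
    have h5 := two_choose (2 * t + 1)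
    have h6 : ((2 * t + 2).choose 2 : ℤ) ≤
        (Module.finrank K ↥(sys P (2 * t) (two i j t)) : ℤ) + 2 * ((t + 1).choose 2 : ℤ) := by
      exact_mod_cast h2
    have h7 : (((t + 1) ^ 2 : ℕ) : ℤ) ≤
        ((Module.finrank K ↥(sys P (2 * t) (two i j t)) : ℕ) : ℤ) := by
      push_cast at h5 ⊢
      have h8 : 2 * ((2 * t + 2).choose 2 : ℤ) = (2 * (t : ℤ) + 1) * (2 * t + 1 + 1) := by
        rw [← h5]
      nlinarith
    exact_mod_cast h7
  refine h1.trans ?_
  have hfin : Module.Finite K ↥(sys P (2 * t + N) (two i j (t + N))) := by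
    have hf : Module.Finite K ↥(homogeneousSubmodule (Fin 3) K (2 * t + N)) :=
      Module.Finite.iff_fg.2 (homogeneousSubmodule_fg _ _ _)
    exact Module.Finite.of_injective
      (Submodule.inclusion (inf_le_left : sys P (2 * t + N) (two i j (t + N)) ≤
        homogeneousSubmodule (Fin 3) K (2 * t + N))) (Submodule.inclusion_injective _)
  obtain ⟨L, hL⟩ : ∃ L, L = line (P i) (P j) := ⟨_, rfl⟩
  have hmem : ∀ f ∈ sys P (2 * t) (two i j t), L ^ N * f ∈ sys P (2 * t + N) (two i j (t + N)) := by
    intro f hf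
    unfold sys at hf ⊢
    rw [Submodule.mem_inf, mem_homogeneousSubmodule, Submodule.restrictScalars_mem,
      Ideal.mem_iInf] at hf ⊢
    refine ⟨?_, fun l => ?_⟩
    · have h2 := ((line_hom (P i) (P j)).pow N).mul hf.1
      rw [hL]
      convert h2 using 1
      ring
    · have h2 := hf.2 l
      unfold two at h2 ⊢
      by_cases hl : l = i ∨ l = j
      · rw [if_pos hl] at h2 ⊢
        have h3 : L ∈ pt (P l) := by
          rcases hl with rfl | rfl
          · rw [hL]; exact line_left _ _
          · rw [hL]; exact line_right _ _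
        rw [show t + N = N + t by ring, pow_add]
        exact Ideal.mul_mem_mul (Ideal.pow_mem_pow h3 N) h2
      · rw [if_neg hl] at h2 ⊢
        rw [pow_zero, Ideal.one_eq_top]
        exact Submodule.mem_top
  let φ : ↥(sys P (2 * t) (two i j t)) →ₗ[K] ↥(sys P (2 * t + N) (two i j (t + N))) :=
    { toFun := fun f => ⟨L ^ N * f.1, hmem f.1 f.2⟩
      map_add' := fun f g => Subtype.ext (mul_add _ _ _)
      map_smul' := fun c f => Subtype.ext (by
        show L ^ N * (c • f.1) = c • (L ^ N * f.1)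
        rw [mul_smul_comm]) }
  refine LinearMap.finrank_le_finrank_of_injective (f := φ) ?_
  intro f g h
  have h2 : L ^ N * f.1 = L ^ N * g.1 := congrArg Subtype.val h
  have h3 : L ^ N ≠ 0 := by
    rw [hL]
    exact pow_ne_zero _ (line_ne hP)
  exact Subtype.ext (mul_left_cancel₀ h3 h2)

/-- the virtual dimension -/
theorem chi_two {i j : Fin n} (hij : i ≠ j) (t N : ℕ) :
    2 * chi (2 * t + N) (two i j (t + N)) = 2 * ((t : ℤ) + 1) ^ 2 - (N : ℤ) * (N - 1) := by
  have h3 := sum_two hij (t + N) (fun a => (a + 1).choose 2) rfl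
  have h4 : ∑ l, ((two i j (t + N) l + 1).choose 2 : ℤ) = 2 * ((t + N + 1).choose 2 : ℤ) := by
    exact_mod_cast h3
  have h5 := two_choose (2 * t + N + 1)
  have h6 := two_choose (t + N)
  unfold chi
  rw [h4]
  push_cast at h5 h6
  have h7 : ((2 * t + N + 2).choose 2 : ℤ) = ((2 * t + N + 1 + 1).choose 2 : ℤ) := rfl
  rw [h7]
  linear_combination h5 - 2 * h6

/-- The system is special for `2 ≤ N`. -/
theorem two_special {P : Fin n → Fin 2 → K} {i j : Fin n} (hP : P i ≠ P j) (t N : ℕ)
    (hN : 2 ≤ N) : (Module.finrank K ↥(sys P (2 * t + N) (two i j (t + N))) : ℤ) ≠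
      max 0 (chi (2 * t + N) (two i j (t + N))) := by
  have hij : i ≠ j := fun h => hP (by rw [h])
  have h1 := two_lower hP t N
  have h2 := chi_two hij t N
  have h3 : ((t : ℤ) + 1) ^ 2 ≤
      (Module.finrank K ↥(sys P (2 * t + N) (two i j (t + N))) : ℤ) := by exact_mod_cast h1
  have h4 : (2 : ℤ) ≤ N := by exact_mod_cast hN
  intro h5
  rcases max_choice (0 : ℤ) (chi (2 * t + N) (two i j (t + N))) with h | h
  · rw [h] at h5
    have : (0 : ℤ) < ((t : ℤ) + 1) ^ 2 := by positivity
    linarith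
  · rw [h] at h5
    nlinarith

/-- The superabundance of quadratic order. -/
theorem two_big {P : Fin n → Fin 2 → K} {i j : Fin n} (hP : P i ≠ P j) {μ : ℕ} (hμ : 2 ≤ μ) :
    ∃ d : ℕ, 0 < Module.finrank K ↥(sys P d (two i j μ)) ∧
      (μ : ℤ) ^ 2 ≤ 16 * ((Module.finrank K ↥(sys P d (two i j μ)) : ℤ) -
        max 0 (chi d (two i j μ))) := by
  have hij : i ≠ j := fun h => hP (by rw [h])
  obtain ⟨t, N, rfl, h1, h2⟩ : ∃ t N : ℕ, μ = t + N ∧ 4 * t ≤ μ ∧ μ < 4 * t + 4 :=
    ⟨μ / 4, μ - μ / 4, by omega, by omega, by omega⟩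
  have h3 := two_lower hP t N
  have h4 := chi_two hij t N
  have h3' : ((t : ℤ) + 1) ^ 2 ≤
      (Module.finrank K ↥(sys P (2 * t + N) (two i j (t + N))) : ℤ) := by exact_mod_cast h3
  refine ⟨2 * t + N, lt_of_lt_of_le (by positivity) h3, ?_⟩
  have h5 : (4 : ℤ) * t ≤ t + N := by exact_mod_cast h1
  have h6 : (t : ℤ) + N < 4 * t + 4 := by exact_mod_cast h2
  have h7 : (2 : ℤ) ≤ t + N := by exact_mod_cast hμ
  have h8 : (0 : ℤ) ≤ t := Int.natCast_nonneg _
  push_cast
  rcases max_choice (0 : ℤ) (chi (2 * t + N) (two i j (t + N))) with h | h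
  · rw [h]
    nlinarith
  · rw [h]
    have h9 : (2 : ℤ) ≤ N := by
      by_contra hcon
      push Not at hcon
      have : (t : ℤ) = 0 := by linarith
      linarith
    nlinarith

end Pool.Agent.R873.SB
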